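import Pool.Agent.Lib_helper45.MOD.Red

/-!
# Closure of the inequality on `(2,3)`: all positive semidefinite pairs, all states, `[2,3]`
-/

open scoped BigOperators ComplexOrder Kronecker MatrixOrder Topology
open MeasureTheory Set Matrix Filter

namespace Pool.Agent.RC

open Pool.Agent.Lib_helper98.Renyi

variable {ι κ : Type} [Fintype ι] [DecidableEq ι] [Fintype κ] [DecidableEq κ]

theorem sPair_shift {A D : Matrix ι ι ℂ} (hA : A.PosSemidef) (hs : (A - D).PosSemidef)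
    (ha : (A + D).PosSemidef) (j : ℕ) : SPair (shift A j) D := by
  refine ⟨?_, ?_, ?_⟩
  · unfold shift
    rw [add_comm]
    exact (eps_posDef j).add_posSemidef hA
  · have : shift A j - D = ((1 / ((j : ℝ) + 1) : ℝ) : ℂ) • (1 : Matrix ι ι ℂ) + (A - D) := by
      unfold shift; abel
    rw [this]
    exact (eps_posDef j).add_posSemidef hs
  · have : shift A j + D = ((1 / ((j : ℝ) + 1) : ℝ) : ℂ) • (1 : Matrix ι ι ℂ) + (A + D) := by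
      unfold shift; abel
    rw [this]
    exact (eps_posDef j).add_posSemidef ha

theorem Core23.psd {α : ℝ} (h : Core23 α) (h2 : 2 < α)
    (A₁ D₁ : Matrix ι ι ℂ) (h₁ : IsPsdPair A₁ D₁)
    (A₂ D₂ : Matrix κ κ ℂ) (h₂ : IsPsdPair A₂ D₂) :
    (2 ^ (α - 1) - 1) * G α (A₁ ⊗ₖ A₂) (D₁ ⊗ₖ D₂) ≤ G α A₁ D₁ * G α A₂ D₂ := by
  have h0 : 0 < α := by linarith
  apply le_of_tendsto_of_tendsto'
    ((tendsto_G_shift_kron h0 h₁.pos.1 h₁.herm h₂.pos.1 h₂.herm).const_mul (2 ^ (α - 1) - 1))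
    ((tendsto_G_shift h0 h₁.pos.1 h₁.herm).mul (tendsto_G_shift h0 h₂.pos.1 h₂.herm))
  intro j
  exact h ι κ (shift A₁ j) D₁ (shift A₂ j) D₂ (sPair_shift h₁.pos h₁.sub h₁.add j)
    (sPair_shift h₂.pos h₂.sub h₂.add j)

theorem psd_closed (H : ∀ α : ℝ, 2 < α → α < 3 → Core23 α) (α : ℝ) (h2 : 2 ≤ α) (h3 : α ≤ 3)
    (A₁ D₁ : Matrix ι ι ℂ) (h₁ : IsPsdPair A₁ D₁)
    (A₂ D₂ : Matrix κ κ ℂ) (h₂ : IsPsdPair A₂ D₂) :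
    (2 ^ (α - 1) - 1) * G α (A₁ ⊗ₖ A₂) (D₁ ⊗ₖ D₂) ≤ G α A₁ D₁ * G α A₂ D₂ := by
  rcases eq_or_lt_of_le h2 with rfl | h2'
  · obtain ⟨t1, t2⟩ := tendsto_sides A₁ D₁ A₂ D₂ 2 (by norm_num) (𝓝[>] 2) nhdsWithin_le_nhds
    apply le_of_tendsto_of_tendsto t2 t1
    have hev : ∀ᶠ α : ℝ in 𝓝[>] 2, α ∈ Ioo (2 : ℝ) 3 := Ioo_mem_nhdsGT (by norm_num)
    filter_upwards [hev] with α hα
    exact (H α hα.1 hα.2).psd hα.1 A₁ D₁ h₁ A₂ D₂ h₂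
  rcases eq_or_lt_of_le h3 with rfl | h3'
  · obtain ⟨t1, t2⟩ := tendsto_sides A₁ D₁ A₂ D₂ 3 (by norm_num) (𝓝[<] 3) nhdsWithin_le_nhds
    apply le_of_tendsto_of_tendsto t2 t1
    have hev : ∀ᶠ α : ℝ in 𝓝[<] 3, α ∈ Ioo (2 : ℝ) 3 := Ioo_mem_nhdsLT (by norm_num)
    filter_upwards [hev] with α hα
    exact (H α hα.1 hα.2).psd hα.1 A₁ D₁ h₁ A₂ D₂ h₂
  exact (H α h2' h3').psd h2' A₁ D₁ h₁ A₂ D₂ h₂

/-- from strict pairs on `(2,3)` to all states on `[2,3]` -/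
theorem states_of_core (H : ∀ α : ℝ, 2 < α → α < 3 → Core23 α)
    {σ₁ : Fin 2 → Matrix ι ι ℂ} {σ₂ : Fin 2 → Matrix κ κ ℂ}
    (h₁ : ∀ x, IsDensity (σ₁ x)) (h₂ : ∀ x, IsDensity (σ₂ x)) (α : ℝ) (h2 : 2 ≤ α) (h3 : α ≤ 3) :
    Fval α σ₁ σ₂ ≤ Hsum α σ₁ σ₂ := by
  have h0 : 0 < α := by linarith
  have p₁ := psdPair_state h₁ h0
  have p₂ := psdPair_state h₂ h0
  apply Fval_le_Hsum_of_one_lt h₁ h₂ (by linarith)
  rw [p₁.Gfun_eq h0, p₂.Gfun_eq h0, (p₁.kron p₂).Gfun_eq h0]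
  exact psd_closed H α h2 h3 _ _ p₁ _ _ p₂

/-- `Q1` on `[2,3]` for all states follows from (MOD) -/
theorem states_of_MOD (H : ∀ α : ℝ, 2 < α → α < 3 → MOD α)
    {σ₁ : Fin 2 → Matrix ι ι ℂ} {σ₂ : Fin 2 → Matrix κ κ ℂ}
    (h₁ : ∀ x, IsDensity (σ₁ x)) (h₂ : ∀ x, IsDensity (σ₂ x)) (α : ℝ) (h2 : 2 ≤ α) (h3 : α ≤ 3) :
    Fval α σ₁ σ₂ ≤ Hsum α σ₁ σ₂ :=
  states_of_core (fun α a b => (H α a b).core a b) h₁ h₂ α h2 h3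

/-- `Q1` on `[2,3]` for all states follows from the summed form -/
theorem states_of_MODS (H : ∀ α : ℝ, 2 < α → α < 3 → MODS α)
    {σ₁ : Fin 2 → Matrix ι ι ℂ} {σ₂ : Fin 2 → Matrix κ κ ℂ}
    (h₁ : ∀ x, IsDensity (σ₁ x)) (h₂ : ∀ x, IsDensity (σ₂ x)) (α : ℝ) (h2 : 2 ≤ α) (h3 : α ≤ 3) :
    Fval α σ₁ σ₂ ≤ Hsum α σ₁ σ₂ :=
  states_of_core (fun α a b => (H α a b).core a b) h₁ h₂ α h2 h3

end Pool.Agent.RC
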