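import Pool.Agent.Lib_helper95.RC.State

/-!
# The reduction of `Q1` on `[2,3]` to (MOD) (or to its summed form)

`T2 = m₁`, `Ts (m+1) = m_{m+2}`; (MOD) says `m₁ m'_j + m_j m'₁ - m₁ m'₁ ≤ M_j` for `j ≥ 2`.
-/

open scoped BigOperators ComplexOrder Kronecker MatrixOrder Topology
open MeasureTheory Set Matrix Filter

namespace Pool.Agent.RC

variable {ι κ : Type} [Fintype ι] [DecidableEq ι] [Fintype κ] [DecidableEq κ]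

/-- the coefficients of the expansion for `2 < α < 3` -/
theorem pieces23 (α : ℝ) (h2 : 2 < α) (h3 : α < 3) :
    ∃ c : ℕ → ℝ, (∀ m, 0 ≤ c m) ∧ HasSum c (α * (α - 1) / 2 - (2 ^ (α - 1) - 1)) ∧
      ∀ (ι : Type) [Fintype ι] [DecidableEq ι] (A D : Matrix ι ι ℂ), IsPair A D →
        HasSum (fun m : ℕ => c m * Ts α A D (m + 1)) (α * (α - 1) / 2 * T2 α A D - G α A D) := by
  have h4 : α < 4 := by linarith
  obtain ⟨c, hc, hser⟩ := series24 α h2 h4 (ne_of_lt h3)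
  have h0 : 0 < α := by linarith
  have hc0 : c ≠ 0 := by
    rintro rfl
    simp at hc
  have hα : ∀ m : ℕ, α < ((2 * (m + 2) : ℕ) : ℝ) := by
    intro m
    push_cast
    have : (0 : ℝ) ≤ m := Nat.cast_nonneg m
    linarith
  have hb : ∀ m : ℕ, 0 < bet α (2 * (m + 2)) := fun m => bet_pos α _ h0 (hα m)
  have hcneg : c < 0 := by
    rcases pos_and_pos_or_neg_and_neg_of_mul_pos hc with h | h
    · linarith [h.2]
    · exact h.1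
  set w : ℕ → ℝ := fun m => c * (bet α (2 * (m + 2)) / (2 * ((m : ℝ) + 2))) with hw
  have hsum : ∀ (ι : Type) [Fintype ι] [DecidableEq ι] (A D : Matrix ι ι ℂ), IsPair A D →
      HasSum (fun m : ℕ => (-w m) * Ts α A D (m + 1))
        (α * (α - 1) / 2 * T2 α A D - G α A D) := by
    intro ι _ _ A D h
    have h5 := ((hser ι A D h).mul_left c).neg
    rw [mul_div_cancel₀ _ hc0, neg_sub] at h5
    have h6 : (fun m : ℕ => (-w m) * Ts α A D (m + 1)) =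
        fun m : ℕ => -(c * (In α A D (2 * (m + 2)) / (2 * ((m : ℝ) + 2)))) := by
      funext m
      have := (hb m).ne'
      show -(c * (bet α (2 * (m + 2)) / (2 * ((m : ℝ) + 2)))) *
        (In α A D (2 * (m + 2)) / bet α (2 * (m + 2))) = _
      field_simp
    rw [h6]
    exact h5
  refine ⟨fun m => -w m, ?_, ?_, hsum⟩
  · intro m
    show 0 ≤ -(c * (bet α (2 * (m + 2)) / (2 * ((m : ℝ) + 2))))
    have h5 : 0 ≤ bet α (2 * (m + 2)) / (2 * ((m : ℝ) + 2)) := by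
      have := (hb m).le
      positivity
    have h6 := mul_nonneg (neg_nonneg.2 hcneg.le) h5
    linarith
  · have h5 := hsum Unit 1 1 pair_one
    rw [G_one α h0, T2_one α h0 h4, mul_one] at h5
    have h6 : (fun m : ℕ => (-w m) * Ts α (1 : Matrix Unit Unit ℂ) 1 (m + 1)) =
        fun m => -w m := by
      funext m
      show (-w m) * (In α (1 : Matrix Unit Unit ℂ) 1 (2 * (m + 2)) / bet α (2 * (m + 2))) = -w m
      rw [In_one, div_self (hb m).ne', mul_one]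
    rw [h6] at h5
    exact h5

/-- `(2^(α-1) - 1) T₂ ≤ G` for `2 < α < 3` -/
theorem T2_le_G (α : ℝ) (h2 : 2 < α) (h3 : α < 3) (A D : Matrix ι ι ℂ) (h : IsPair A D) :
    (2 ^ (α - 1) - 1) * T2 α A D ≤ G α A D := by
  obtain ⟨c, hc, hs, hser⟩ := pieces23 α h2 h3
  have h1 : HasSum (fun m => c m * T2 α A D - c m * Ts α A D (m + 1))
      ((α * (α - 1) / 2 - (2 ^ (α - 1) - 1)) * T2 α A D -
        (α * (α - 1) / 2 * T2 α A D - G α A D)) :=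
    (hs.mul_right (T2 α A D)).sub (hser ι A D h)
  have h2 := h1.nonneg fun m => by
    rw [← mul_sub]
    exact mul_nonneg (hc m) (sub_nonneg.2
      (Ts_anti α (by linarith) (by linarith) A D h (Nat.zero_le (m + 1))))
  linarith

theorem L_nonneg' {α : ℝ} (h2 : 2 < α) : (0 : ℝ) ≤ 2 ^ (α - 1) - 1 := by
  have : (1 : ℝ) ≤ 2 ^ (α - 1) := Real.one_le_rpow (by norm_num) (by linarith)
  linarith

/-- the summed form: `G(⊗) ≤ m₁ G' + m'₁ G - κ m₁ m'₁` is enough -/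
theorem core23_of_sum (α : ℝ) (h2 : 2 < α) (h3 : α < 3)
    (A₁ D₁ : Matrix ι ι ℂ) (h₁ : IsPair A₁ D₁) (A₂ D₂ : Matrix κ κ ℂ) (h₂ : IsPair A₂ D₂)
    (h : G α (A₁ ⊗ₖ A₂) (D₁ ⊗ₖ D₂) ≤ T2 α A₁ D₁ * G α A₂ D₂ + T2 α A₂ D₂ * G α A₁ D₁ -
      (2 ^ (α - 1) - 1) * (T2 α A₁ D₁ * T2 α A₂ D₂)) :
    (2 ^ (α - 1) - 1) * G α (A₁ ⊗ₖ A₂) (D₁ ⊗ₖ D₂) ≤ G α A₁ D₁ * G α A₂ D₂ := by
  have ha := sub_nonneg.2 (T2_le_G α h2 h3 A₁ D₁ h₁)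
  have hb := sub_nonneg.2 (T2_le_G α h2 h3 A₂ D₂ h₂)
  have h9 := mul_le_mul_of_nonneg_left h (L_nonneg' h2)
  have h10 := mul_nonneg ha hb
  nlinarith [h9, h10]

/-- (MOD) is enough, pair by pair -/
theorem core23_of_mod (α : ℝ) (h2 : 2 < α) (h3 : α < 3)
    (A₁ D₁ : Matrix ι ι ℂ) (h₁ : IsPair A₁ D₁) (A₂ D₂ : Matrix κ κ ℂ) (h₂ : IsPair A₂ D₂)
    (hmod : ∀ m : ℕ, T2 α A₁ D₁ * Ts α A₂ D₂ (m + 1) + Ts α A₁ D₁ (m + 1) * T2 α A₂ D₂ -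
      T2 α A₁ D₁ * T2 α A₂ D₂ ≤ Ts α (A₁ ⊗ₖ A₂) (D₁ ⊗ₖ D₂) (m + 1)) :
    (2 ^ (α - 1) - 1) * G α (A₁ ⊗ₖ A₂) (D₁ ⊗ₖ D₂) ≤ G α A₁ D₁ * G α A₂ D₂ := by
  apply core23_of_sum α h2 h3 A₁ D₁ h₁ A₂ D₂ h₂
  obtain ⟨c, hc, hs, hser⟩ := pieces23 α h2 h3
  have hS := (((hs.mul_right (T2 α A₁ D₁ * T2 α A₂ D₂)).sub
    ((hser κ A₂ D₂ h₂).mul_right (T2 α A₁ D₁))).sub
    ((hser ι A₁ D₁ h₁).mul_right (T2 α A₂ D₂))).add (hser _ _ _ (h₁.kron h₂))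
  have h3' := hS.nonneg fun m => by
    have h5 := mul_nonneg (hc m) (sub_nonneg.2 (hmod m))
    have h6 : c m * (T2 α A₁ D₁ * T2 α A₂ D₂) - c m * Ts α A₂ D₂ (m + 1) * T2 α A₁ D₁ -
        c m * Ts α A₁ D₁ (m + 1) * T2 α A₂ D₂ + c m * Ts α (A₁ ⊗ₖ A₂) (D₁ ⊗ₖ D₂) (m + 1) =
        c m * (Ts α (A₁ ⊗ₖ A₂) (D₁ ⊗ₖ D₂) (m + 1) - (T2 α A₁ D₁ * Ts α A₂ D₂ (m + 1) +
          Ts α A₁ D₁ (m + 1) * T2 α A₂ D₂ - T2 α A₁ D₁ * T2 α A₂ D₂)) := by ring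
    rw [h6]
    exact h5
  have hC : 0 ≤ α * (α - 1) / 2 := by
    have : 0 ≤ α - 1 := by linarith
    have : 0 ≤ α := by linarith
    positivity
  have h8 := mul_nonneg hC (sub_nonneg.2
    (T2_kron_le α h2.le h3.le A₁ D₁ A₂ D₂ h₁.pos h₁.herm h₂.pos h₂.herm))
  nlinarith [h3', h8]

/-- strict pairs: `A > 0`, `A ± D > 0` -/
structure SPair (A D : Matrix ι ι ℂ) : Prop where
  pos : A.PosDef
  sub : (A - D).PosDef
  add : (A + D).PosDef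

omit [Fintype ι] [DecidableEq ι] in
theorem SPair.isPair {A D : Matrix ι ι ℂ} (h : SPair A D) : IsPair A D where
  pos := h.pos
  sub := h.sub.posSemidef
  add := h.add.posSemidef

/-- the inequality for all strict pairs at the exponent `α` -/
def Core23 (α : ℝ) : Prop :=
  ∀ (ι κ : Type) [Fintype ι] [DecidableEq ι] [Fintype κ] [DecidableEq κ]
    (A₁ D₁ : Matrix ι ι ℂ) (A₂ D₂ : Matrix κ κ ℂ), SPair A₁ D₁ → SPair A₂ D₂ →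
    (2 ^ (α - 1) - 1) * G α (A₁ ⊗ₖ A₂) (D₁ ⊗ₖ D₂) ≤ G α A₁ D₁ * G α A₂ D₂

/-- (MOD) for all strict pairs at the exponent `α` -/
def MOD (α : ℝ) : Prop :=
  ∀ (ι κ : Type) [Fintype ι] [DecidableEq ι] [Fintype κ] [DecidableEq κ]
    (A₁ D₁ : Matrix ι ι ℂ) (A₂ D₂ : Matrix κ κ ℂ), SPair A₁ D₁ → SPair A₂ D₂ → ∀ m : ℕ,
    T2 α A₁ D₁ * Ts α A₂ D₂ (m + 1) + Ts α A₁ D₁ (m + 1) * T2 α A₂ D₂ -
      T2 α A₁ D₁ * T2 α A₂ D₂ ≤ Ts α (A₁ ⊗ₖ A₂) (D₁ ⊗ₖ D₂) (m + 1)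

/-- the summed form for all strict pairs at the exponent `α` -/
def MODS (α : ℝ) : Prop :=
  ∀ (ι κ : Type) [Fintype ι] [DecidableEq ι] [Fintype κ] [DecidableEq κ]
    (A₁ D₁ : Matrix ι ι ℂ) (A₂ D₂ : Matrix κ κ ℂ), SPair A₁ D₁ → SPair A₂ D₂ →
    G α (A₁ ⊗ₖ A₂) (D₁ ⊗ₖ D₂) ≤ T2 α A₁ D₁ * G α A₂ D₂ + T2 α A₂ D₂ * G α A₁ D₁ -
      (2 ^ (α - 1) - 1) * (T2 α A₁ D₁ * T2 α A₂ D₂)

theorem MOD.core {α : ℝ} (h : MOD α) (h2 : 2 < α) (h3 : α < 3) : Core23 α :=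
  fun ι κ _ _ _ _ A₁ D₁ A₂ D₂ h₁ h₂ =>
    core23_of_mod α h2 h3 A₁ D₁ h₁.isPair A₂ D₂ h₂.isPair (h ι κ A₁ D₁ A₂ D₂ h₁ h₂)

theorem MODS.core {α : ℝ} (h : MODS α) (h2 : 2 < α) (h3 : α < 3) : Core23 α :=
  fun ι κ _ _ _ _ A₁ D₁ A₂ D₂ h₁ h₂ =>
    core23_of_sum α h2 h3 A₁ D₁ h₁.isPair A₂ D₂ h₂.isPair (h ι κ A₁ D₁ A₂ D₂ h₁ h₂)

end Pool.Agent.RC
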